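import Mathlib
import Pool.Agent.H94.AC.Targets

/-!
# Analytic dependence of projected solutions (module ABS)
-/

open MeasureTheory Set Filter Topology Metric
open scoped ENNReal NNReal ContDiff RealInnerProductSpace

namespace Pool.Agent.H57.ICA

open Pool.Agent.H94.AC

theorem comp_clm {A B : Type*} [NormedAddCommGroup A] [NormedSpace ℝ A] [NormedAddCommGroup B]
    [NormedSpace ℝ B] (g : A →L[ℝ] B) {f : ℝ → A} {t : ℝ} (hf : AnalyticAt ℝ f t) :
    AnalyticAt ℝ (fun x => g (f x)) t := (g.analyticAt _).comp hf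

theorem comp_inv {A : Type*} [NormedAddCommGroup A] [NormedSpace ℝ A] [CompleteSpace A]
    {f : ℝ → (A →L[ℝ] A)} {t : ℝ} (hf : AnalyticAt ℝ f t) (hu : IsUnit (f t)) :
    AnalyticAt ℝ (fun x => Ring.inverse (f x)) t := by
  obtain ⟨u, hu⟩ := hu
  have h1 := analyticAt_inverse (𝕜 := ℝ) (A := A →L[ℝ] A) u
  have h2 : AnalyticAt ℝ (Ring.inverse : (A →L[ℝ] A) → (A →L[ℝ] A)) (f t) := by
    rw [← hu]; exact h1
  exact h2.comp hf

theorem clm_apply' {A B : Type*} [NormedAddCommGroup A] [NormedSpace ℝ A] [NormedAddCommGroup B]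
    [NormedSpace ℝ B] {f : ℝ → (A →L[ℝ] B)} {g : ℝ → A} {t : ℝ} (hf : AnalyticAt ℝ f t)
    (hg : AnalyticAt ℝ g t) : AnalyticAt ℝ (fun x => f x (g x)) t :=
  ((ContinuousLinearMap.id ℝ (A →L[ℝ] B)).analyticAt_bilinear (f t, g t)).comp₂ hf hg

theorem abs : T_ABS := by
  intro H _ _ _ W J a F hJ h0 ha hb hF hw
  let V : Submodule ℝ H := W.topologicalClosure
  have hVc : CompleteSpace V := W.isClosed_topologicalClosure.completeSpace_coe
  let P : H →L[ℝ] V := V.orthogonalProjection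
  let ι : V →L[ℝ] H := V.subtypeL
  have hPι : ∀ v : V, P (ι v) = v := fun v => V.orthogonalProjection_mem_subspace_eq_self v
  -- the equation holds for all of V
  have hwV : ∀ t ∈ J, ∀ w ∈ V, ⟪a t (F t), w⟫ = 0 := by
    intro t ht w hwm
    have hcl : IsClosed {w : H | ⟪a t (F t), w⟫ = 0} :=
      isClosed_eq (continuous_const.inner continuous_id) continuous_const
    have hsub : (W : Set H) ⊆ {w : H | ⟪a t (F t), w⟫ = 0} := fun w hw' => hw t ht w hw'
    have := closure_minimal hsub hcl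
    exact this hwm
  have hP0 : ∀ t ∈ J, P (a t (F t)) = 0 := by
    intro t ht
    have : a t (F t) ∈ Vᗮ := by
      rw [Submodule.mem_orthogonal']
      exact fun w hw' => hwV t ht w hw'
    exact Submodule.orthogonalProjection_mem_subspace_orthogonalComplement_eq_zero this
  let Λ : (H →L[ℝ] H) →L[ℝ] (V →L[ℝ] V) :=
    (ContinuousLinearMap.compL ℝ V H V P) ∘L ((ContinuousLinearMap.compL ℝ V H H).flip ι)
  have hΛ : ∀ (A : H →L[ℝ] H) (v : V), Λ A v = P (A (ι v)) := fun A v => rfl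
  have hunit : ∀ t ∈ J, IsUnit (Λ (a t)) := by
    intro t ht
    have hn : ‖1 - Λ (a t)‖ ≤ 1 / 2 := by
      refine ContinuousLinearMap.opNorm_le_bound _ (by norm_num) fun v => ?_
      have h1 : (1 - Λ (a t)) v = P ((1 - a t) (ι v)) := by
        simp only [ContinuousLinearMap.sub_apply, ContinuousLinearMap.one_apply, hΛ, map_sub, hPι]
      rw [h1]
      have hle : ‖P ((1 - a t) (ι v))‖ ≤ ‖(1 - a t) (ι v)‖ := V.norm_orthogonalProjection_apply_le _
      refine hle.trans ((ContinuousLinearMap.le_opNorm _ _).trans ?_)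
      have h2 : ‖(1 : H →L[ℝ] H) - a t‖ ≤ 1 / 2 := by rw [norm_sub_rev]; exact hb t ht
      have h3 : ‖ι v‖ = ‖v‖ := rfl
      rw [h3]
      exact mul_le_mul_of_nonneg_right h2 (norm_nonneg _)
    have := isUnit_one_sub_of_norm_lt_one (x := 1 - Λ (a t)) (lt_of_le_of_lt hn (by norm_num))
    simpa using this
  -- the formula
  have hform : ∀ t ∈ J, F t = F 0 - ι (Ring.inverse (Λ (a t)) (P (a t (F 0)))) := by
    intro t ht
    have hm : F t - F 0 ∈ V := W.le_topologicalClosure (hF t ht)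
    let v : V := ⟨F t - F 0, hm⟩
    have hv : ι v = F t - F 0 := rfl
    have h1 : Λ (a t) v = - P (a t (F 0)) := by
      rw [hΛ, hv, map_sub, map_sub, hP0 t ht, zero_sub]
    have h2 : Ring.inverse (Λ (a t)) (Λ (a t) v) = v := by
      have := Ring.inverse_mul_cancel (Λ (a t)) (hunit t ht)
      have h3 := DFunLike.congr_fun this v
      simpa using h3
    rw [h1, map_neg] at h2
    have h4 : ι v = - ι (Ring.inverse (Λ (a t)) (P (a t (F 0)))) := by
      rw [← h2, map_neg]
    rw [hv] at h4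
    rw [sub_eq_iff_eq_add] at h4
    rw [h4]; abel
  intro t ht
  have hat : AnalyticAt ℝ a t := ha t ht
  have hB : AnalyticAt ℝ (fun t => Λ (a t)) t := comp_clm (A := H →L[ℝ] H) (B := V →L[ℝ] V) Λ hat
  have hinv : AnalyticAt ℝ (fun t => Ring.inverse (Λ (a t))) t := comp_inv hB (hunit t ht)
  have hc : AnalyticAt ℝ (fun t => P (a t (F 0))) t :=
    comp_clm P (clm_apply' hat analyticAt_const)
  have hm : AnalyticAt ℝ (fun t => Ring.inverse (Λ (a t)) (P (a t (F 0)))) t := clm_apply' hinv hc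
  have hfin : AnalyticAt ℝ (fun t => F 0 - ι (Ring.inverse (Λ (a t)) (P (a t (F 0))))) t :=
    analyticAt_const.sub (comp_clm ι hm)
  refine hfin.congr ?_
  filter_upwards [hJ.mem_nhds ht] with s hs
  exact (hform s hs).symm

end Pool.Agent.H57.ICA
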