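import Mathlib
import Pool.Agent.H94.AC.Targets
import Pool.Agent.H86.IC.Smo

/-!
# Smooth cutoffs with small support (module CUT)
-/

open MeasureTheory Set Filter Topology Metric
open scoped ENNReal NNReal ContDiff RealInnerProductSpace

namespace Pool.Agent.H57.ICA

open Pool.Agent.H94.AC Pool.Agent.H94.IC Pool.Agent.H86.IC

/-- the Lipschitz cutoff -/
noncomputable def gc (Z : Set E) (r : ℝ) (x : E) : ℝ := min 1 (max 0 (4 / r * infDist x Z - 1))

theorem gc_nonneg (Z : Set E) (r : ℝ) (x : E) : 0 ≤ gc Z r x :=
  le_min zero_le_one (le_max_left _ _)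

theorem gc_le_one (Z : Set E) (r : ℝ) (x : E) : gc Z r x ≤ 1 := min_le_left _ _

theorem gc_lip (Z : Set E) {r : ℝ} (hr : 0 < r) (x y : E) :
    |gc Z r x - gc Z r y| ≤ 4 / r * ‖x - y‖ := by
  unfold gc
  have h1 : |infDist x Z - infDist y Z| ≤ ‖x - y‖ := by
    have := (lipschitz_infDist_pt Z).dist_le_mul x y
    simpa [Real.dist_eq, dist_eq_norm] using this
  calc |min 1 (max 0 (4 / r * infDist x Z - 1)) - min 1 (max 0 (4 / r * infDist y Z - 1))|
      ≤ |max 0 (4 / r * infDist x Z - 1) - max 0 (4 / r * infDist y Z - 1)| := by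
        have := abs_min_sub_min_le_max 1 (max 0 (4 / r * infDist x Z - 1)) 1
          (max 0 (4 / r * infDist y Z - 1))
        simpa using this
    _ ≤ |(4 / r * infDist x Z - 1) - (4 / r * infDist y Z - 1)| := by
        have := abs_max_sub_max_le_max 0 (4 / r * infDist x Z - 1) 0 (4 / r * infDist y Z - 1)
        simpa using this
    _ = 4 / r * |infDist x Z - infDist y Z| := by
        rw [show (4 / r * infDist x Z - 1) - (4 / r * infDist y Z - 1)
          = 4 / r * (infDist x Z - infDist y Z) by ring, abs_mul, abs_of_pos (by positivity)]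
    _ ≤ 4 / r * ‖x - y‖ := mul_le_mul_of_nonneg_left h1 (by positivity)

theorem gc_cont (Z : Set E) (r : ℝ) : Continuous (gc Z r) := by
  unfold gc
  exact continuous_const.min (continuous_const.max
    ((continuous_const.mul (continuous_infDist_pt Z)).sub continuous_const))

theorem cut : T_CUT := by
  intro Z r hZ hne hr
  have hδ : 0 < r / 8 := by positivity
  let κ : E → ℝ := ml (r / 8) hδ 0 (gc Z r)
  have hint : ∀ x, Integrable fun t => kr (r / 8) hδ 0 t * gc Z r (x - t) := by
    intro x
    refine (kr_integrable (δ := r / 8) (hδ := hδ) (n := 0)).mul_bdd (c := 1) ?_ ?_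
    · exact ((gc_cont Z r).comp (continuous_const.sub continuous_id)).aestronglyMeasurable
    · refine Eventually.of_forall fun t => ?_
      rw [Real.norm_eq_abs, abs_of_nonneg (gc_nonneg _ _ _)]
      exact gc_le_one _ _ _
  have hdist : ∀ x t : E, ‖t‖ ≤ r / 8 → |infDist (x - t) Z - infDist x Z| ≤ r / 8 := by
    intro x t ht
    have := (lipschitz_infDist_pt Z).dist_le_mul (x - t) x
    have h2 : |infDist (x - t) Z - infDist x Z| ≤ ‖t‖ := by
      simpa [Real.dist_eq, dist_eq_norm] using this
    exact h2.trans ht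
  refine ⟨κ, ml_smooth (gc_cont Z r), fun x => ⟨?_, ?_⟩, ?_, ?_, ?_⟩
  · exact integral_nonneg fun t => mul_nonneg (kr_nonneg t) (gc_nonneg _ _ _)
  · calc κ x ≤ ∫ t, kr (r / 8) hδ 0 t := by
          apply integral_mono (hint x) kr_integrable
          intro t
          exact mul_le_of_le_one_right (kr_nonneg t) (gc_le_one _ _ _)
      _ = 1 := kr_int
  · refine ⟨{x | infDist x Z < r / 8}, isOpen_lt (continuous_infDist_pt Z) continuous_const,
      fun x hx => ?_, fun x hx => ?_⟩
    · show infDist x Z < r / 8
      rw [infDist_zero_of_mem hx]; exact hδ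
    · have hx' : infDist x Z < r / 8 := hx
      show ∫ t, kr (r / 8) hδ 0 t * gc Z r (x - t) = 0
      apply integral_eq_zero_of_ae
      refine Eventually.of_forall fun t => ?_
      show kr (r / 8) hδ 0 t * gc Z r (x - t) = 0
      by_cases hk : kr (r / 8) hδ 0 t = 0
      · rw [hk, zero_mul]
      · have h1 := hdist x t (kr_supp hk)
        rw [abs_le] at h1
        have h2 : infDist (x - t) Z ≤ r / 4 := by linarith [h1.2]
        have h3 : 4 / r * infDist (x - t) Z - 1 ≤ 0 := by
          have : 4 / r * infDist (x - t) Z ≤ 4 / r * (r / 4) :=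
            mul_le_mul_of_nonneg_left h2 (by positivity)
          have h4 : 4 / r * (r / 4) = 1 := by field_simp
          linarith
        have h5 : gc Z r (x - t) = 0 := by
          unfold gc
          rw [max_eq_left h3]; simp
        rw [h5, mul_zero]
  · intro x hx
    show ∫ t, kr (r / 8) hδ 0 t * gc Z r (x - t) = 1
    rw [← kr_int (δ := r / 8) (hδ := hδ) (n := 0)]
    apply integral_congr_ae
    refine Eventually.of_forall fun t => ?_
    show kr (r / 8) hδ 0 t * gc Z r (x - t) = kr (r / 8) hδ 0 t
    by_cases hk : kr (r / 8) hδ 0 t = 0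
    · rw [hk, zero_mul]
    · have h1 := hdist x t (kr_supp hk)
      rw [abs_le] at h1
      have h2 : r / 2 ≤ infDist (x - t) Z := by linarith [h1.1]
      have h3 : 1 ≤ 4 / r * infDist (x - t) Z - 1 := by
        have : 4 / r * (r / 2) ≤ 4 / r * infDist (x - t) Z :=
          mul_le_mul_of_nonneg_left h2 (by positivity)
        have h4 : 4 / r * (r / 2) = 2 := by field_simp; norm_num
        linarith
      have h5 : gc Z r (x - t) = 1 := by
        unfold gc
        rw [min_eq_left]
        exact h3.trans (le_max_right _ _)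
      rw [h5, mul_one]
  · intro x
    rw [norm_gr']
    have hlip : LipschitzWith (Real.toNNReal (4 / r)) κ := by
      apply LipschitzWith.of_dist_le_mul
      intro y z
      rw [Real.dist_eq, dist_eq_norm, Real.coe_toNNReal _ (by positivity)]
      show |(∫ t, kr (r / 8) hδ 0 t * gc Z r (y - t)) - ∫ t, kr (r / 8) hδ 0 t * gc Z r (z - t)| ≤ _
      rw [← integral_sub (hint y) (hint z), ← Real.norm_eq_abs]
      calc ‖∫ t, (kr (r / 8) hδ 0 t * gc Z r (y - t) - kr (r / 8) hδ 0 t * gc Z r (z - t))‖
          ≤ ∫ t, kr (r / 8) hδ 0 t * (4 / r * ‖y - z‖) := by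
            apply norm_integral_le_of_norm_le (kr_integrable.mul_const _)
            refine Eventually.of_forall fun t => ?_
            rw [← mul_sub, norm_mul, Real.norm_eq_abs, Real.norm_eq_abs,
              abs_of_nonneg (kr_nonneg t)]
            have := gc_lip Z hr (y - t) (z - t)
            rw [sub_sub_sub_cancel_right] at this
            exact mul_le_mul_of_nonneg_left this (kr_nonneg t)
        _ = 4 / r * ‖y - z‖ := by rw [integral_mul_const, kr_int, one_mul]
    have h1 := norm_fderiv_le_of_lipschitz ℝ hlip (x₀ := x)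
    rw [Real.coe_toNNReal _ (by positivity)] at h1
    refine h1.trans ?_
    exact div_le_div_of_nonneg_right (by norm_num) hr.le

end Pool.Agent.H57.ICA
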