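import Mathlib
import Pool.Agent.H94.AC.Targets
import Pool.Agent.H29.IC.Tools

/-!
# Smooth functions have no jump (module SNJ)
-/

open MeasureTheory Set Filter Topology Metric
open scoped ENNReal NNReal ContDiff RealInnerProductSpace

namespace Pool.Agent.H57.ICA

open Pool.Agent.H94.AC Pool.Agent.H94.IC Pool.Agent.H29.IC

theorem snj : T_SNJ := by
  intro Ω S f U p r X hΩ hS hS0 hb hU hf hX hXc hXs
  set Y : E → E := fun x => U x • X x with hY
  have hYs : tsupport Y ⊆ tsupport X := closure_mono (Function.support_smul_subset_right U X)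
  have hYc : HasCompactSupport Y := by
    have := hXc.smul_left (f := U)
    exact this
  have hYd : ContDiff ℝ ∞ Y := by
    rw [contDiff_iff_contDiffAt]
    intro x
    by_cases hx : x ∈ ball p r
    · exact (hU.contDiffAt (isOpen_ball.mem_nhds hx)).smul hX.contDiffAt
    · have h1 : x ∉ tsupport Y := fun h => hx (hXs (hYs h))
      have h2 : Y =ᶠ[𝓝 x] 0 := notMem_tsupport_iff_eventuallyEq.mp h1
      exact contDiffAt_const.congr_of_eventuallyEq h2
  have h0 : ∫ x, dv Y x = 0 := integral_dv_eq_zero (hYd.of_le (by exact_mod_cast le_top)) hYc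
  have h1 : JX Ω X f = ∫ x in Ω, dv Y x := by
    unfold JX
    apply integral_congr_ae
    have hae : ∀ᵐ x ∂(volume.restrict Ω), x ∉ S :=
      ae_restrict_of_ae (compl_mem_ae_iff.mpr hS0)
    filter_upwards [hae] with x hxS
    by_cases hx : x ∈ ball p r
    · have hop : IsOpen (ball p r ∩ Sᶜ) := isOpen_ball.inter hS.isOpen_compl
      have hev : f =ᶠ[𝓝 x] U := by
        filter_upwards [hop.mem_nhds ⟨hx, hxS⟩] with y hy
        exact hf y hy.1 hy.2
      have hg : gr f x = gr U x := by
        unfold gr gradient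
        rw [hev.fderiv_eq]
      have hUd : DifferentiableAt ℝ U x :=
        (hU.contDiffAt (isOpen_ball.mem_nhds hx)).differentiableAt (by simp)
      have hXd : DifferentiableAt ℝ X x := hX.contDiffAt.differentiableAt (by simp)
      show f x * dv X x + ⟪gr f x, X x⟫ = dv (fun x => U x • X x) x
      rw [dv_smul hUd hXd, hf x hx hxS, hg]
    · have h1 : x ∉ tsupport X := fun h => hx (hXs h)
      have h2 : X x = 0 := image_eq_zero_of_notMem_tsupport h1
      have h3 : x ∉ tsupport Y := fun h => h1 (hYs h)
      show f x * dv X x + ⟪gr f x, X x⟫ = dv Y x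
      rw [dv_eq_zero_of_notMem h1, dv_eq_zero_of_notMem h3, h2]
      simp
  rw [h1, ← h0]
  apply setIntegral_eq_integral_of_forall_compl_eq_zero
  intro x hx
  exact dv_eq_zero_of_notMem fun h => hx (hb (hXs (hYs h)))

end Pool.Agent.H57.ICA
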